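import Pool.Agent.W646.CI.Stm

/-! Project CI, part RAD2: the one dimensional integral. -/

set_option autoImplicit false

namespace Pool.Agent.W67.CI

open Pool.Agent.W646.CI MeasureTheory Filter Topology Set

theorem rho_cont (K : ℕ) : Continuous (rho K) := by
  unfold rho
  fun_prop

theorem rho_nonneg (K : ℕ) (hK : 3 ≤ K) (t : ℝ) (ht : 0 ≤ t) : 0 ≤ rho K t := by
  unfold rho
  have h1 : (3 : ℝ) ≤ K := by exact_mod_cast hK
  have h2 : 0 ≤ (K : ℝ) * (K - 1) := mul_nonneg (by linarith) (by linarith)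
  positivity

theorem hasDeriv (K : ℕ) (hK : 3 ≤ K) (τ t : ℝ) :
    HasDerivAt (fun t : ℝ => K * t ^ (K - 1) * Real.exp (t ^ K) * (τ - t) + Real.exp (t ^ K))
      (rho K t * (τ - t)) t := by
  have h1 : HasDerivAt (fun t : ℝ => t ^ K) (K * t ^ (K - 1)) t := hasDerivAt_pow K t
  have h2 : HasDerivAt (fun t : ℝ => t ^ (K - 1)) ((K - 1 : ℕ) * t ^ (K - 1 - 1)) t :=
    hasDerivAt_pow (K - 1) t
  have h3 := h1.exp
  have h4 : HasDerivAt (fun t : ℝ => τ - t) (-1) t := by
    simpa using (hasDerivAt_id t).const_sub τ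
  have h5 := (((h2.const_mul (K : ℝ)).mul h3).mul h4).add h3
  refine h5.congr_deriv ?_
  unfold rho
  have e1 : ((K - 1 : ℕ) : ℝ) = K - 1 := by
    rw [Nat.cast_sub (by omega)]; simp
  have e2 : K - 1 - 1 = K - 2 := by omega
  simp only [Pi.mul_apply]
  rw [e1, e2]
  ring

theorem main : S_RAD2 := by
  intro K T0 n τ hK hT hTn hτ
  have hTn' : (T0 : ℝ) ≤ n := by exact_mod_cast hTn
  have hT0 : (0 : ℝ) ≤ T0 := Nat.cast_nonneg _
  have hcont : Continuous fun t => rho K t * max 0 (τ - t) :=
    (rho_cont K).mul (by fun_prop)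
  rcases le_or_gt τ T0 with h | h
  · have h0 : ∫ t in (T0 : ℝ)..n, rho K t * max 0 (τ - t) = ∫ t in (T0 : ℝ)..n, (0 : ℝ) := by
      refine intervalIntegral.integral_congr ?_
      intro t ht
      rw [uIcc_of_le hTn'] at ht
      have : τ - t ≤ 0 := by linarith [ht.1]
      simp [max_eq_left this]
    rw [h0]
    simp [Real.exp_nonneg]
  · set N : ℝ := max n τ with hN
    have hnN : (n : ℝ) ≤ N := le_max_left _ _
    have hτN : τ ≤ N := le_max_right _ _
    have hi : ∀ a b : ℝ, IntervalIntegrable (fun t => rho K t * max 0 (τ - t)) volume a b :=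
      fun a b => hcont.intervalIntegrable a b
    have h1 : ∫ t in (T0 : ℝ)..N, rho K t * max 0 (τ - t) =
        (∫ t in (T0 : ℝ)..n, rho K t * max 0 (τ - t)) +
          ∫ t in (n : ℝ)..N, rho K t * max 0 (τ - t) :=
      (intervalIntegral.integral_add_adjacent_intervals (hi _ _) (hi _ _)).symm
    have h2 : 0 ≤ ∫ t in (n : ℝ)..N, rho K t * max 0 (τ - t) := by
      refine intervalIntegral.integral_nonneg hnN ?_
      intro t ht
      exact mul_nonneg (rho_nonneg K hK t (le_trans (le_trans hT0 hTn') ht.1)) (le_max_left _ _)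
    have h3 : ∫ t in (T0 : ℝ)..N, rho K t * max 0 (τ - t) =
        (∫ t in (T0 : ℝ)..τ, rho K t * max 0 (τ - t)) +
          ∫ t in τ..N, rho K t * max 0 (τ - t) :=
      (intervalIntegral.integral_add_adjacent_intervals (hi _ _) (hi _ _)).symm
    have h4 : ∫ t in τ..N, rho K t * max 0 (τ - t) = 0 := by
      have : ∫ t in τ..N, rho K t * max 0 (τ - t) = ∫ t in τ..N, (0 : ℝ) := by
        refine intervalIntegral.integral_congr ?_
        intro t ht
        rw [uIcc_of_le hτN] at ht
        have : τ - t ≤ 0 := by linarith [ht.1]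
        simp [max_eq_left this]
      rw [this]; simp
    have h5 : ∫ t in (T0 : ℝ)..τ, rho K t * max 0 (τ - t) =
        ∫ t in (T0 : ℝ)..τ, rho K t * (τ - t) := by
      refine intervalIntegral.integral_congr ?_
      intro t ht
      rw [uIcc_of_le h.le] at ht
      have : 0 ≤ τ - t := by linarith [ht.2]
      simp [max_eq_right this]
    have h6 := intervalIntegral.integral_eq_sub_of_hasDerivAt
      (fun t _ => hasDeriv K hK τ t)
      (((rho_cont K).mul (by fun_prop : Continuous fun t : ℝ => τ - t)).intervalIntegrable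
        (T0 : ℝ) τ)
    have h7 : ∫ t in (T0 : ℝ)..τ, rho K t * (τ - t) ≤ Real.exp (τ ^ K) := by
      rw [h6]
      have h8 : 0 ≤ (K : ℝ) * (T0 : ℝ) ^ (K - 1) * Real.exp ((T0 : ℝ) ^ K) * (τ - T0) :=
        mul_nonneg (by positivity) (by linarith)
      have h9 := Real.exp_nonneg ((T0 : ℝ) ^ K)
      simp only [sub_self, mul_zero, zero_add]
      linarith
    linarith

end Pool.Agent.W67.CI
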